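import Pool.Agent.J6H4.Supra.Branch

/-! # MP_5251ca_al: Q1 holds for branch groups and for groups that contain their square

The definitions are in the files `J6H4/Supra/Defs` and `J6H4/Supra/BranchDefs`.

1. A branch group is supramenable if and only if it is exponentially bounded: supramenable branch
   groups are exponentially bounded.
2. The same holds for every group `Γ` such that `Γ × Γ` embeds in `Γ`.
3. The same holds for every group that has a subgroup of finite index which is generated by a family
   of at least two pairwise commuting subgroups, each of which embeds in each other one. -/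

set_option autoImplicit false

universe u v

namespace Pool.Agent.Results.MP_5251ca_al.BranchGroups

open Pool.Agent.J6H4.Supra

theorem result :
    (∀ (G : Type u) [Group G], IsBranchGroup G →
      (Supramenable G ↔ ExponentiallyBounded G)) ∧
    (∀ (G : Type u) [Group G] (f : G × G →* G), Function.Injective f →
      (Supramenable G ↔ ExponentiallyBounded G)) ∧
    (∀ (G : Type u) [Group G] (ι : Type v) [Nontrivial ι] (H : ι → Subgroup G),
      (∀ i j, i ≠ j → ∀ x ∈ H i, ∀ y ∈ H j, x * y = y * x) →
      (∀ i j, ∃ f : H i →* H j, Function.Injective f) →
      (⨆ i, H i : Subgroup G).FiniteIndex →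
      (Supramenable G ↔ ExponentiallyBounded G)) :=
  ⟨fun _ _ h => supramenable_iff_of_branch h,
    fun _ _ f hf => supramenable_iff_of_square f hf,
    fun _ _ _ _ H h1 h2 h3 => supramenable_iff_of_virtual H h1 h2 h3⟩

end Pool.Agent.Results.MP_5251ca_al.BranchGroups
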