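import Pool.Agent.J6H4.Supra.TwoSidedM

/-! # MP_5251ca_al: exponential boundedness and two-sided invariant measures

The definitions are in the file `J6H4/Supra/Defs`.

1. A group `G` is exponentially bounded if and only if for every nonempty `A ⊆ G` there is a
   finitely additive measure on all subsets of `G`, with values in `[0,∞]`, that is invariant under
   all left and all right translations and gives `A` the measure one.
2. If the action of `Γ` on `X` is supramenable and `H`, `K` are commuting subgroups of `Γ` that meet
   the stabiliser of a point trivially, then `H` or `K` is exponentially bounded.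
3. If `Γ` is supramenable and `H` is a subgroup, then `H` or the centraliser of `H` is exponentially
   bounded.
4. Q1 holds if and only if every supramenable group is two-sidedly supramenable. -/

set_option autoImplicit false

universe u v

namespace Pool.Agent.Results.MP_5251ca_al.TwoSidedMeasures

open Pool.Agent.J6H4.Supra

theorem result :
    (∀ (G : Type u) [Group G], ExponentiallyBounded G ↔ TwoSidedSupramenable G) ∧
    (∀ (Γ : Type u) (X : Type v) [Group Γ] [MulAction Γ X] (x₀ : X) (H K : Subgroup Γ),
      (∀ h ∈ H, ∀ k ∈ K, h * k = k * h) → (∀ h ∈ H, h • x₀ = x₀ → h = 1) →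
      (∀ k ∈ K, k • x₀ = x₀ → k = 1) → ActSupramenable Γ X →
      ExponentiallyBounded H ∨ ExponentiallyBounded K) ∧
    (∀ (Γ : Type u) [Group Γ] (H : Subgroup Γ), Supramenable Γ →
      ExponentiallyBounded H ∨ ExponentiallyBounded (Subgroup.centralizer (H : Set Γ))) ∧
    ((∀ (G : Type u) [Group G], Supramenable G → ExponentiallyBounded G) ↔
      ∀ (G : Type u) [Group G], Supramenable G → TwoSidedSupramenable G) :=
  ⟨fun _ _ => expBounded_iff_twoSided,
    fun _ _ _ _ x₀ H K h1 h2 h3 h4 => expBounded_or_of_act x₀ H K h1 h2 h3 h4,
    fun _ _ H h => expBounded_or_centralizer H h,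
    ⟨fun h G _ hG => expBounded_iff_twoSided.1 (h G hG),
      fun h G _ hG => expBounded_iff_twoSided.2 (h G hG)⟩⟩

end Pool.Agent.Results.MP_5251ca_al.TwoSidedMeasures
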